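import Mathlib
import Pool.Agent.Mg.Fe23604m.Gc08401

namespace Pool.Agent.Results.MP_f68ac8_nt.AllLevels

open NumberField Pool.Agent.MP_f68ac8_nt

theorem result (p : ℕ) [Fact p.Prime] (K F : IntermediateField ℚ (AlgebraicClosure ℚ))
    [NumberField K] [NumberField F] (h : K ≤ F) (n m : ℕ)
    (r : K.fixingSubgroup →* GL (Fin n) (ZMod p)) (o : Fin m → OrdD p n) (hr : OrdRes F r o)
    (φ : InfinitePlace K → AlgebraicClosure ℚ →+* ℂ)
    (hφ : ∀ v, InfinitePlace.mk ((φ v).comp (algebraMap K (AlgebraicClosure ℚ))) = v)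
    (hδ : ordExp K o < tamDef r φ) (ε : ℝ) (hε : 0 < ε) :
    ∃ d₀, ∀ t : ℕ → K.fixingSubgroup, (∀ j, TamTyp r (t j)) → ∀ d, d₀ ≤ d →
      1 - ε ≤ tupDens (fun j => Typ p K F (t j)) d fun q => Function.Injective q ∧
        NoOrd F r o (Set.range q) :=
  Ze.tame_all p K F n r m o h hr φ hφ hδ ε hε

end Pool.Agent.Results.MP_f68ac8_nt.AllLevels
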