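import Mathlib
import Pool.Agent.Mg.Fe23604m.G578b2e

namespace Pool.Agent.Results.MP_f68ac8_nt.Quadratic

open Pool.Agent.MP_f68ac8_nt Filter

theorem result :
    Tendsto (fun X : ℕ => ({K ∈ CycF 2 X | PotFM 2 4 K.fixingSubgroup}.ncard : ℝ) /
      (CycF 2 X).ncard) atTop (nhds 1) :=
  Nd.quad_pot

end Pool.Agent.Results.MP_f68ac8_nt.Quadratic
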