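import Mathlib
import Pool.Agent.Mg.Fe23604m.G1d9a97

namespace Pool.Agent.Results.MP_f68ac8_nt.TateViaOrdinary

open Pool.Agent.MP_f68ac8_nt Filter

theorem result (p : ℕ) [Fact p.Prime] (hp : 2 < p) :
    Tendsto (fun X : ℕ => ({K ∈ CycF p X | OrdFM p K.fixingSubgroup}.ncard : ℝ) /
      (CycF p X).ncard) atTop (nhds 1) :=
  Ht.ord_all p hp

end Pool.Agent.Results.MP_f68ac8_nt.TateViaOrdinary
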